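import Pool.Agent.Helper68.SG.Defs

set_option autoImplicit false

namespace Pool.Agent.Helper72.SG

open Pool.Agent.Helper68.SG

/-- Solution of a causal fixed point equation by strong recursion. -/
noncomputable def fixp {X : Type} (x0 : X) (Φ : (ℕ → X) → ℕ → X) (n : ℕ) : X :=
  Φ (fun m => if _h : m < n then fixp x0 Φ m else x0) n
termination_by n

theorem fixp_eq {X : Type} (x0 : X) (Φ : (ℕ → X) → ℕ → X)
    (hΦ : ∀ a a' n, (∀ m < n, a m = a' m) → Φ a n = Φ a' n) (n : ℕ) :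
    fixp x0 Φ n = Φ (fixp x0 Φ) n := by
  rw [fixp]
  apply hΦ
  intro m hm
  simp [hm]

theorem causal_fix {X : Type} [Nonempty X] (Φ : (ℕ → X) → ℕ → X)
    (hΦ : ∀ a a' n, (∀ m < n, a m = a' m) → Φ a n = Φ a' n) :
    ∃ a : ℕ → X, ∀ n, a n = Φ a n :=
  ⟨fixp (Classical.arbitrary X) Φ, fun n => fixp_eq _ Φ hΦ n⟩

theorem v2_pos (c m : ℕ) (hm : 2 ^ (c + 1) ∣ m) : padicValNat 2 (m + 2 ^ c) = c := by
  obtain ⟨q, rfl⟩ := hm
  have h : 2 ^ (c + 1) * q + 2 ^ c = 2 ^ c * (2 * q + 1) := by ring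
  rw [h, padicValNat.mul (by positivity) (by omega)]
  rw [padicValNat.prime_pow]
  have : padicValNat 2 (2 * q + 1) = 0 := by
    apply padicValNat.eq_zero_of_not_dvd
    omega
  omega

theorem channels (Aux : Type) [Nonempty Aux] (lam : ℕ → ℕ) (hlam : ∀ c, 2 ^ (c + 1) ∣ lam c) (hpos : ∀ c, 0 < lam c)
    (M : ℕ → Type) (dig : ∀ c, M c → ℕ → Aux)
    (hdig : ∀ c (x y : M c), (∀ j < lam c / 2 ^ (c + 1), dig c x j = dig c y j) → x = y)
    (mu : ∀ c, (ℕ → Aux) → ℕ → M c)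
    (hmu : ∀ c a a' k, (∀ n < k * lam c, a n = a' n) → mu c a k = mu c a' k) :
    ∃ a : ℕ → Aux, ∀ c k k', (∀ j < lam c, a (k * lam c + j) = a (k' * lam c + j)) →
      mu c a k = mu c a k' := by
  obtain ⟨a, ha⟩ := causal_fix (X := Aux) (fun a n =>
    dig (padicValNat 2 n) (mu (padicValNat 2 n) a (n / lam (padicValNat 2 n)))
      ((n % lam (padicValNat 2 n)) / 2 ^ (padicValNat 2 n + 1))) (by
    intro a a' n h
    have := hmu (padicValNat 2 n) a a' (n / lam (padicValNat 2 n)) (by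
      intro m hm
      exact h m (lt_of_lt_of_le hm (Nat.div_mul_le_self _ _)))
    simp only [this])
  refine ⟨a, ?_⟩
  have key : ∀ c k, ∀ j < lam c / 2 ^ (c + 1),
      2 ^ (c + 1) * j + 2 ^ c < lam c ∧
      a (k * lam c + (2 ^ (c + 1) * j + 2 ^ c)) = dig c (mu c a k) j := by
    intro c k j hj
    have h2 : 2 ^ (c + 1) = 2 * 2 ^ c := by ring
    have hc : 0 < 2 ^ c := by positivity
    have hlt : 2 ^ (c + 1) * j + 2 ^ c < lam c := by
      have h1 : 2 ^ (c + 1) * (j + 1) ≤ lam c := by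
        calc 2 ^ (c + 1) * (j + 1) ≤ 2 ^ (c + 1) * (lam c / 2 ^ (c + 1)) :=
              Nat.mul_le_mul_left _ hj
          _ ≤ lam c := Nat.mul_div_le _ _
      have h3 : 2 ^ (c + 1) * (j + 1) = 2 ^ (c + 1) * j + 2 ^ (c + 1) := by ring
      omega
    refine ⟨hlt, ?_⟩
    have hv : padicValNat 2 (k * lam c + (2 ^ (c + 1) * j + 2 ^ c)) = c := by
      rw [← Nat.add_assoc]
      apply v2_pos
      exact dvd_add ((hlam c).mul_left k) (Dvd.intro _ rfl)
    have hdiv : (k * lam c + (2 ^ (c + 1) * j + 2 ^ c)) / lam c = k := by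
      rw [mul_comm, Nat.mul_add_div (hpos c), Nat.div_eq_of_lt hlt, Nat.add_zero]
    have hmod : (k * lam c + (2 ^ (c + 1) * j + 2 ^ c)) % lam c = 2 ^ (c + 1) * j + 2 ^ c := by
      rw [mul_comm, Nat.mul_add_mod, Nat.mod_eq_of_lt hlt]
    have hj' : (2 ^ (c + 1) * j + 2 ^ c) / 2 ^ (c + 1) = j := by
      rw [Nat.mul_add_div (by positivity), Nat.div_eq_of_lt (by omega), Nat.add_zero]
    rw [ha, hv, hdiv, hmod, hj']
  intro c k k' h
  apply hdig
  intro j hj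
  rw [← (key c k j hj).2, ← (key c k' j hj).2]
  exact h _ (key c k j hj).1

end Pool.Agent.Helper72.SG
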