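import Pool.Agent.Helper68.SG.Defs
import Pool.Agent.Helper72.SG.Channels

set_option autoImplicit false

namespace Pool.Agent.Helper72.SG

open Pool.Agent.Helper68.SG Polynomial

section
variable {T : Type} {p d : ℕ}

/-- the polynomial part of the type -/
noncomputable def tyP [Fact p.Prime] (enc : T → Fin d → ZMod p) (s : ℕ) (x : T) : ZMod p :=
  ∑ j : Fin d, enc x j * ((s : ZMod p) + 1) ^ (j.val + 2)

/-- the type in the field -/
noncomputable def tyZ [Fact p.Prime] (enc : T → Fin d → ZMod p) (s : ℕ) (x : T) (f : ZMod p) :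
    ZMod p :=
  tyP enc s x + f * ((s : ZMod p) + 1)

theorem s1_ne [Fact p.Prime] (s : ℕ) (h : s + 1 < p) : ((s : ZMod p) + 1) ≠ 0 := by
  have : ((s + 1 : ℕ) : ZMod p) ≠ 0 := by
    rw [Ne, ZMod.natCast_eq_zero_iff]
    intro hd
    exact absurd (Nat.le_of_dvd (by omega) hd) (by omega)
  simpa using this

/-- the difference polynomial -/
noncomputable def dif [Fact p.Prime] (enc : T → Fin d → ZMod p) (x y : T) (f g : ZMod p) :
    (ZMod p)[X] :=
  ∑ j : Fin d, C (enc x j - enc y j) * X ^ (j.val + 2) + C (f - g) * X

theorem dif_eval [Fact p.Prime] (enc : T → Fin d → ZMod p) (x y : T) (f g : ZMod p) (s : ℕ) :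
    (dif enc x y f g).eval ((s : ZMod p) + 1) = tyZ enc s x f - tyZ enc s y g := by
  simp only [dif, tyZ, tyP, eval_add, eval_finsetSum, eval_mul, eval_C, eval_pow, eval_X]
  simp only [sub_mul, Finset.sum_sub_distrib]
  ring

theorem dif_degree [Fact p.Prime] (enc : T → Fin d → ZMod p) (x y : T) (f g : ZMod p) :
    (dif enc x y f g).natDegree ≤ d + 1 := by
  refine (natDegree_add_le _ _).trans (max_le ?_ ?_)
  · refine natDegree_sum_le_of_forall_le _ _ (fun j _ => ?_)
    refine (natDegree_C_mul_X_pow_le _ _).trans ?_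
    have := j.2
    omega
  · refine (natDegree_C_mul_le _ _).trans ?_
    rw [natDegree_X]
    omega

theorem dif_ne [Fact p.Prime] (enc : T → Fin d → ZMod p) (hi : Function.Injective enc)
    (x y : T) (f g : ZMod p) (h : (x, f) ≠ (y, g)) : dif enc x y f g ≠ 0 := by
  intro h0
  apply h
  have hc : ∀ m, (dif enc x y f g).coeff m = 0 := by
    intro m; rw [h0]; simp
  have h1 : f = g := by
    have := hc 1
    simp only [dif, coeff_add, finsetSum_coeff, coeff_C_mul, coeff_X_pow, coeff_X_one] at this
    rw [Finset.sum_eq_zero (by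
      intro j _
      rw [if_neg (by omega)]
      ring)] at this
    simpa [sub_eq_zero] using this
  have h2 : x = y := by
    apply hi
    funext i
    have := hc (i.val + 2)
    simp only [dif, coeff_add, finsetSum_coeff, coeff_C_mul, coeff_X_pow, coeff_X] at this
    rw [Finset.sum_eq_single i (by
      intro j _ hj
      rw [if_neg (by
        intro hh
        apply hj
        ext
        omega)]
      ring) (by simp)] at this
    rw [if_pos rfl, if_neg (by omega)] at this
    simpa [sub_eq_zero] using this
  rw [h1, h2]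

theorem agree_card [Fact p.Prime] (enc : T → Fin d → ZMod p) (hi : Function.Injective enc)
    (k : ℕ) (hk : k < p) (x y : T) (f g : ZMod p) (h : (x, f) ≠ (y, g)) :
    ((Finset.univ : Finset (Fin k)).filter
      (fun s : Fin k => tyZ enc s.val x f = tyZ enc s.val y g)).card ≤ d + 1 := by
  classical
  have hne := dif_ne enc hi x y f g h
  calc _ = (((Finset.univ : Finset (Fin k)).filter
      (fun s : Fin k => tyZ enc s.val x f = tyZ enc s.val y g)).image
        (fun s : Fin k => ((s.val : ZMod p) + 1))).card := by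
        rw [Finset.card_image_of_injOn]
        intro s _ s' _ hss
        have h1 : ((s.val : ZMod p)) = (s'.val : ZMod p) := by
          simpa using hss
        rw [ZMod.natCast_eq_natCast_iff'] at h1
        rw [Nat.mod_eq_of_lt (by have := s.2; omega), Nat.mod_eq_of_lt (by have := s'.2; omega)] at h1
        exact Fin.ext h1
    _ ≤ (dif enc x y f g).roots.toFinset.card := by
        apply Finset.card_le_card
        intro z hz
        rw [Finset.mem_image] at hz
        obtain ⟨s, hs, rfl⟩ := hz
        rw [Finset.mem_filter] at hs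
        rw [Multiset.mem_toFinset, mem_roots hne, IsRoot.def, dif_eval, hs.2, sub_self]
    _ ≤ Multiset.card (dif enc x y f g).roots := Multiset.toFinset_card_le _
    _ ≤ (dif enc x y f g).natDegree := card_roots' _
    _ ≤ d + 1 := dif_degree enc x y f g

end

theorem typeSystem (T : Type) [Fintype T] (p d k W B : ℕ) (hp : p.Prime)
    (hcard : Fintype.card T ≤ p ^ d) (hkW : k * W < p) (hW : 1 ≤ W) (hB : B * (d + 1) < k) :
    ∃ (F : (ℕ → T) → ℕ → Fin p) (ty : Fin k → T → Fin p → Fin p),
      (∀ t t' m, (∀ j ≤ m, t j = t' j) → F t m = F t' m) ∧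
      (∀ t s m m', m < m' → m' < m + W → ty s (t m) (F t m) ≠ ty s (t m') (F t m')) ∧
      (∀ (x : T) (f : Fin p) (G : Finset (T × Fin p)), G.card ≤ B →
        ∃ s, ∀ g ∈ G, ty s g.1 g.2 = ty s x f → g = (x, f)) := by
  classical
  have : Fact p.Prime := ⟨hp⟩
  have : NeZero p := ⟨hp.ne_zero⟩
  have hk : k < p := by nlinarith
  -- encoding
  obtain ⟨enc, hi⟩ : ∃ enc : T → Fin d → ZMod p, Function.Injective enc := by
    have : Fintype.card T ≤ Fintype.card (Fin d → ZMod p) := by
      rw [Fintype.card_fun, ZMod.card, Fintype.card_fin]; exact hcard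
    obtain ⟨e⟩ := Function.Embedding.nonempty_of_card_le this
    exact ⟨e, e.injective⟩
  let E := ZMod.finEquiv p
  let ty : Fin k → T → Fin p → Fin p := fun s x f => E.symm (tyZ enc s.val x (E f))
  have hs1 : ∀ s : Fin k, ((s.val : ZMod p) + 1) ≠ 0 := fun s => s1_ne s.val (by have := s.2; omega)
  -- the greedy predicate
  let Pr : (ℕ → T) → (ℕ → Fin p) → ℕ → Fin p → Prop := fun t g m f =>
    ∀ s : Fin k, ∀ m' < m, m < m' + W → ty s (t m') (g m') ≠ ty s (t m) f
  have hex : ∀ t g m, ∃ f, Pr t g m f := by
    intro t g m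
    let S : Finset (Fin p) := (Finset.univ : Finset (Fin k × Fin W)).image (fun q =>
      E.symm ((tyZ enc q.1.val (t (m - 1 - q.2.val)) (E (g (m - 1 - q.2.val)))
        - tyP enc q.1.val (t m)) / ((q.1.val : ZMod p) + 1)))
    have hS : S.card < Fintype.card (Fin p) := by
      calc S.card ≤ (Finset.univ : Finset (Fin k × Fin W)).card := Finset.card_image_le
        _ = k * W := by simp
        _ < p := hkW
        _ = _ := by simp
    obtain ⟨f, hf⟩ : ∃ f, f ∉ S := by
      by_contra hcon
      push Not at hcon
      have : S = Finset.univ := Finset.eq_univ_iff_forall.2 hcon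
      rw [this, Finset.card_univ] at hS
      exact lt_irrefl _ hS
    refine ⟨f, ?_⟩
    intro s m' hm' hW' heq
    apply hf
    rw [Finset.mem_image]
    refine ⟨(s, ⟨m - 1 - m', by omega⟩), Finset.mem_univ _, ?_⟩
    have hidx : m - 1 - (m - 1 - m') = m' := by omega
    simp only [hidx]
    have h1 : tyZ enc s.val (t m') (E (g m')) = tyZ enc s.val (t m) (E f) := E.symm.injective heq
    rw [h1]
    have h2 : (tyZ enc s.val (t m) (E f) - tyP enc s.val (t m)) / ((s.val : ZMod p) + 1) = E f := by
      rw [tyZ, add_sub_cancel_left, mul_div_assoc, div_self (hs1 s), mul_one]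
    rw [h2]
    exact E.symm_apply_apply f
  let step : (ℕ → T) → (ℕ → Fin p) → ℕ → Fin p := fun t g m => (hex t g m).choose
  have hstep : ∀ t g m, Pr t g m (step t g m) := fun t g m => (hex t g m).choose_spec
  have hPr : ∀ t t' g g' m, (∀ j ≤ m, t j = t' j) → (∀ j < m, g j = g' j) →
      Pr t g m = Pr t' g' m := by
    intro t t' g g' m ht hg
    funext f
    apply propext
    constructor
    · intro h s m' hm' hW'
      have := h s m' hm' hW'
      rwa [ht m' hm'.le, hg m' hm', ht m le_rfl] at this
    · intro h s m' hm' hW'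
      have := h s m' hm' hW'
      rwa [← ht m' hm'.le, ← hg m' hm', ← ht m le_rfl] at this
  have hstep_loc : ∀ t t' g g' m, (∀ j ≤ m, t j = t' j) → (∀ j < m, g j = g' j) →
      step t g m = step t' g' m := by
    intro t t' g g' m ht hg
    have key : ∀ (P Q : Fin p → Prop) (hP : ∃ f, P f) (hQ : ∃ f, Q f), P = Q →
        hP.choose = hQ.choose := by
      intro P Q hP hQ h
      subst h
      rfl
    exact key _ _ _ _ (hPr t t' g g' m ht hg)
  let x0 : Fin p := ⟨0, hp.pos⟩
  let F : (ℕ → T) → ℕ → Fin p := fun t => fixp x0 (step t)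
  have hF : ∀ t m, F t m = step t (F t) m := by
    intro t m
    exact fixp_eq x0 (step t) (fun a a' n h => hstep_loc t t a a' n (fun _ _ => rfl) h) m
  refine ⟨F, ty, ?_, ?_, ?_⟩
  · intro t t' m
    induction m using Nat.strong_induction_on with
    | _ m ih =>
      intro h
      rw [hF, hF]
      apply hstep_loc _ _ _ _ _ h
      intro j hj
      exact ih j hj (fun i hij => h i (hij.trans hj.le))
  · intro t s m m' hlt hW'
    have h := hstep t (F t) m' s m hlt hW'
    rw [← hF t m'] at h
    exact h
  · intro x f G hG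
    by_contra hcon
    push Not at hcon
    have hsub : (Finset.univ : Finset (Fin k)) ⊆
        (G.filter (fun g => g ≠ (x, f))).biUnion (fun g => (Finset.univ : Finset (Fin k)).filter
          (fun s : Fin k => tyZ enc s.val g.1 (E g.2) = tyZ enc s.val x (E f))) := by
      intro s _
      obtain ⟨g, hg, hgs, hne⟩ := hcon s
      rw [Finset.mem_biUnion]
      refine ⟨g, by rw [Finset.mem_filter]; exact ⟨hg, hne⟩, ?_⟩
      rw [Finset.mem_filter]
      exact ⟨Finset.mem_univ _, E.symm.injective hgs⟩
    have hc := Finset.card_le_card hsub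
    rw [Finset.card_univ, Fintype.card_fin] at hc
    have : k ≤ B * (d + 1) := by
      calc k ≤ _ := hc
        _ ≤ ∑ g ∈ G.filter (fun g => g ≠ (x, f)), (d + 1) := by
            refine Finset.card_biUnion_le.trans (Finset.sum_le_sum (fun g hg => ?_))
            rw [Finset.mem_filter] at hg
            apply agree_card enc hi k hk
            intro heq
            apply hg.2
            have h1 : g.1 = x := (Prod.ext_iff.1 heq).1
            have h2 : E g.2 = E f := (Prod.ext_iff.1 heq).2
            exact Prod.ext h1 (E.injective h2)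
        _ = (G.filter (fun g => g ≠ (x, f))).card * (d + 1) := by
            rw [Finset.sum_const, smul_eq_mul]
        _ ≤ B * (d + 1) := Nat.mul_le_mul_right _ ((Finset.card_filter_le _ _).trans hG)
    omega

end Pool.Agent.Helper72.SG
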